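import Pool.Agent.TH79.FS.Wreath

/-!
The automorphism group of the free solvable group of rank `r` and derived length `d` is not
finitely generated when `r ≥ 3` and `d ≥ 3`.
-/

set_option autoImplicit false

namespace Pool.Agent.Results.MP_4aafa9_al.NotFinitelyGenerated

open Pool.Agent.TH79.FS

/-- For all `r ≥ 3` and `d ≥ 3` the automorphism group of the free solvable group
`F_r / F_r^(d)` is not finitely generated. -/
theorem result : ∀ r d : ℕ, 3 ≤ r → 3 ≤ d →
    ¬ Group.FG (MulAut (FreeGroup (Fin r) ⧸ derivedSeries (FreeGroup (Fin r)) d)) := by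
  intro r d hr hd
  obtain ⟨e, rfl⟩ : ∃ e, d = e + 3 := ⟨d - 3, by omega⟩
  obtain ⟨P, _, _, ι, _, _, lev, R0, hgood, a, b, c, y, hy, htr⟩ := dat_all e
  let x₀ : Fin r := ⟨0, by omega⟩
  let x₁ : Fin r := ⟨1, by omega⟩
  let x₂ : Fin r := ⟨2, by omega⟩
  have h10 : x₁ ≠ x₀ := by intro h; simp [x₁, x₀] at h
  have h20 : x₂ ≠ x₀ := by intro h; simp [x₂, x₀] at h
  have h21 : x₂ ≠ x₁ := by intro h; simp [x₂, x₁] at h
  let j : FreeGroup (Fin 2) →* FreeGroup (Fin r) :=
    FreeGroup.lift ![FreeGroup.of x₁, FreeGroup.of x₂]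
  let θ : FreeGroup (Fin r) →* P :=
    FreeGroup.lift (fun x => if x = x₀ then c else if x = x₁ then a else if x = x₂ then b else 1)
  have hθ0 : θ (FreeGroup.of x₀) = c := by
    simp only [θ, FreeGroup.lift_apply_of, if_pos]
  have hθ1 : θ (FreeGroup.of x₁) = a := by
    simp only [θ, FreeGroup.lift_apply_of, if_neg h10, if_true]
  have hθ2 : θ (FreeGroup.of x₂) = b := by
    simp only [θ, FreeGroup.lift_apply_of, if_neg h20, if_neg h21, if_true]
  have hθj : θ (j y) = FreeGroup.lift ![a, b] y := by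
    have : θ.comp j = FreeGroup.lift ![a, b] := by
      apply FreeGroup.ext_hom
      intro i
      fin_cases i
      · show θ (j (FreeGroup.of 0)) = FreeGroup.lift ![a, b] (FreeGroup.of 0)
        simp only [j, FreeGroup.lift_apply_of]
        exact hθ1
      · show θ (j (FreeGroup.of 1)) = FreeGroup.lift ![a, b] (FreeGroup.of 1)
        simp only [j, FreeGroup.lift_apply_of]
        exact hθ2
    exact DFunLike.congr_fun this y
  have hj0 : j y ∈ away x₀ := by
    have h : j.range ≤ away x₀ := by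
      rw [FreeGroup.range_lift_eq_closure]
      apply Subgroup.closure_mono
      rintro _ ⟨i, rfl⟩
      fin_cases i
      · exact ⟨x₁, h10, rfl⟩
      · exact ⟨x₂, h20, rfl⟩
    exact h ⟨y, rfl⟩
  refine not_fg_of_trace hgood θ x₀ (mem_derived_of_hom j hy) hj0 fun N => ?_
  refine ⟨4 * N + 1, by omega, ?_⟩
  rw [hθj, hθ0]
  exact htr _ (by omega)

end Pool.Agent.Results.MP_4aafa9_al.NotFinitelyGenerated
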